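import Mathlib

set_option autoImplicit false

/-!
# A simple Jordan ring with an automorphism of order three and a solvable fixed subring

The ring is the vector space of dimension three over the field with two elements with the cross
product. It is commutative, the square of every element is zero, and its derived series is
constant. The cyclic permutation of the coordinates is an automorphism of order three, and the
fixed subring has two elements and zero multiplication.
-/

namespace Pool.Agent.Results.MP_8ae111_al.JordanCyclic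

/-- `D` is the derived series of the subring `B` of the ring `A`: `D 0 = B`, and `D (k + 1)` is the
additive subgroup generated by the products of two elements of `D k`. -/
def IsDerivedSeries {A : Type} [NonUnitalNonAssocRing A] (B : AddSubgroup A)
    (D : ℕ → AddSubgroup A) : Prop :=
  D 0 = B ∧
    ∀ k : ℕ, D (k + 1) = AddSubgroup.closure {z : A | ∃ u ∈ D k, ∃ v ∈ D k, u * v = z}

/-- the vectors of length three over the field with two elements -/
def J8 : Type := ZMod 2 × ZMod 2 × ZMod 2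

instance : AddCommGroup J8 := inferInstanceAs (AddCommGroup (ZMod 2 × ZMod 2 × ZMod 2))
instance : DecidableEq J8 := inferInstanceAs (DecidableEq (ZMod 2 × ZMod 2 × ZMod 2))
instance : Fintype J8 := inferInstanceAs (Fintype (ZMod 2 × ZMod 2 × ZMod 2))

/-- the cross product -/
instance : Mul J8 := ⟨fun x y =>
  (x.2.1 * y.2.2 - x.2.2 * y.2.1, x.2.2 * y.1 - x.1 * y.2.2, x.1 * y.2.1 - x.2.1 * y.1)⟩

theorem mul_1 (x y : J8) : (x * y).1 = x.2.1 * y.2.2 - x.2.2 * y.2.1 := rfl
theorem mul_2 (x y : J8) : (x * y).2.1 = x.2.2 * y.1 - x.1 * y.2.2 := rfl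
theorem mul_3 (x y : J8) : (x * y).2.2 = x.1 * y.2.1 - x.2.1 * y.1 := rfl

theorem ext' {x y : J8} (h1 : x.1 = y.1) (h2 : x.2.1 = y.2.1) (h3 : x.2.2 = y.2.2) : x = y :=
  Prod.ext h1 (Prod.ext h2 h3)

theorem add_1 (x y : J8) : (x + y).1 = x.1 + y.1 := rfl
theorem add_2 (x y : J8) : (x + y).2.1 = x.2.1 + y.2.1 := rfl
theorem add_3 (x y : J8) : (x + y).2.2 = x.2.2 + y.2.2 := rfl

instance : NonUnitalNonAssocRing J8 :=
  { (inferInstance : AddCommGroup J8), (inferInstance : Mul J8) with
    left_distrib := fun a b c => by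
      refine ext' ?_ ?_ ?_ <;> simp only [mul_1, mul_2, mul_3, add_1, add_2, add_3] <;> ring
    right_distrib := fun a b c => by
      refine ext' ?_ ?_ ?_ <;> simp only [mul_1, mul_2, mul_3, add_1, add_2, add_3] <;> ring
    zero_mul := fun a => by
      change ((0 * a.2.2 - 0 * a.2.1, 0 * a.1 - 0 * a.2.2, 0 * a.2.1 - 0 * a.1) :
        ZMod 2 × ZMod 2 × ZMod 2) = (0, 0, 0)
      simp
    mul_zero := fun a => by
      change ((a.2.1 * 0 - a.2.2 * 0, a.2.2 * 0 - a.1 * 0, a.1 * 0 - a.2.1 * 0) :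
        ZMod 2 × ZMod 2 × ZMod 2) = (0, 0, 0)
      simp }

theorem comm (x y : J8) : x * y = y * x := by
  revert x y; decide

theorem sq (x : J8) : x * x = 0 := by
  revert x; decide

/-- every vector is a product -/
theorem mem_of_products (G : AddSubgroup J8) (h : ∀ u v : J8, u * v ∈ G) : G = ⊤ := by
  rw [eq_top_iff]
  intro x _
  have h1 : ∀ x : J8, ∃ a b : J8, a * b = x := by decide
  obtain ⟨a, b, rfl⟩ := h1 x
  exact h a b

/-- the cyclic permutation of the coordinates -/
def cyc : RingAut J8 where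
  toFun x := (x.2.1, x.2.2, x.1)
  invFun x := (x.2.2, x.1, x.2.1)
  left_inv _ := rfl
  right_inv _ := rfl
  map_add' _ _ := rfl
  map_mul' x y := by
    refine ext' ?_ ?_ ?_
    · change x.2.2 * y.1 - x.1 * y.2.2 = x.2.2 * y.1 - x.1 * y.2.2; rfl
    · change x.1 * y.2.1 - x.2.1 * y.1 = x.1 * y.2.1 - x.2.1 * y.1; rfl
    · change x.2.1 * y.2.2 - x.2.2 * y.2.1 = x.2.1 * y.2.2 - x.2.2 * y.2.1; rfl

theorem cyc_apply (x : J8) : cyc x = ((x.2.1, x.2.2, x.1) : ZMod 2 × ZMod 2 × ZMod 2) := rfl

theorem cyc_pow : cyc ^ 3 = 1 := by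
  ext x
  rfl

theorem cyc_ne : cyc ≠ 1 := by
  intro h
  have h1 : ∃ x : J8, ((x.2.1, x.2.2, x.1) : ZMod 2 × ZMod 2 × ZMod 2) ≠ x := by decide
  obtain ⟨x, hx⟩ := h1
  exact hx (DFunLike.congr_fun h x)

theorem fixed_mul : ∀ x y : J8, ((x.2.1, x.2.2, x.1) : ZMod 2 × ZMod 2 × ZMod 2) = x →
    ((y.2.1, y.2.2, y.1) : ZMod 2 × ZMod 2 × ZMod 2) = y → x * y = 0 := by decide

/-- **Theorem.** There are a Jordan ring `A` and a group `G` of three automorphisms of `A` such that
`A` has no `|G|`-torsion, the subring of fixed elements is solvable (it has zero multiplication), but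
all the terms of the derived series of `A` are equal to `A`, and `A` is not zero. -/
theorem result : ∃ (A : Type) (_ : NonUnitalNonAssocRing A) (G : Subgroup (RingAut A))
    (B : AddSubgroup A),
    (∀ x y : A, x * y = y * x ∧ ((x * x) * y) * x = (x * x) * (y * x)) ∧
    Nat.card G = 3 ∧ (∀ a : A, Nat.card G • a = 0 → a = 0) ∧
    (∀ a : A, a ∈ B ↔ ∀ g ∈ G, g a = a) ∧
    (∀ D : ℕ → AddSubgroup A, IsDerivedSeries B D → D 1 = ⊥) ∧
    (∀ D : ℕ → AddSubgroup A, IsDerivedSeries ⊤ D → ∀ k : ℕ, D k = ⊤ ∧ D k ≠ ⊥) := by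
  have hcard : Nat.card (Subgroup.zpowers cyc) = 3 := by
    rw [Nat.card_zpowers]
    have : Fact (Nat.Prime 3) := ⟨Nat.prime_three⟩
    exact orderOf_eq_prime cyc_pow cyc_ne
  let B : AddSubgroup J8 :=
    { carrier := {a | ∀ g ∈ Subgroup.zpowers cyc, g a = a}
      zero_mem' := fun g _ => map_zero g
      add_mem' := fun {a b} ha hb g hg => by rw [map_add, ha g hg, hb g hg]
      neg_mem' := fun {a} ha g hg => by rw [map_neg, ha g hg] }
  refine ⟨J8, inferInstance, Subgroup.zpowers cyc, B, fun x y => ⟨comm x y, ?_⟩, hcard, ?_, 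
    fun a => Iff.rfl, ?_, ?_⟩
  · rw [sq, zero_mul, zero_mul, zero_mul]
  · rw [hcard]
    have : ∀ a : J8, 3 • a = 0 → a = 0 := by decide
    exact this
  · rintro D ⟨h0, hD⟩
    rw [hD 0, h0, eq_bot_iff, AddSubgroup.closure_le]
    rintro z ⟨u, hu, v, hv, rfl⟩
    have h1 : u * v = 0 := fixed_mul u v (hu cyc (Subgroup.mem_zpowers _)) (hv cyc (Subgroup.mem_zpowers _))
    rw [h1]
    exact AddSubgroup.zero_mem _
  · rintro D ⟨h0, hD⟩ k
    have h1 : D k = ⊤ := by
      induction k with
      | zero => exact h0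
      | succ k ih =>
        apply mem_of_products
        intro u v
        rw [hD k, ih]
        exact AddSubgroup.subset_closure ⟨u, AddSubgroup.mem_top u, v, AddSubgroup.mem_top v, rfl⟩
    refine ⟨h1, ?_⟩
    rw [h1]
    intro h2
    obtain ⟨x, hx⟩ : ∃ x : J8, x ≠ 0 := by decide
    have h3 : x ∈ (⊤ : AddSubgroup J8) := AddSubgroup.mem_top _
    rw [h2, AddSubgroup.mem_bot] at h3
    exact hx h3

end Pool.Agent.Results.MP_8ae111_al.JordanCyclic
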